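import Mathlib

set_option autoImplicit false

namespace Pool.Agent.H.MP_daa8b9_co

open Relation

def addP {X : Type} (r : X → X → Prop) (a b : X) : X → X → Prop :=
  fun x y => r x y ∨ (x = a ∧ y = b)

def rl (u v x : ℕ) : ℕ := if x = max u v then min u v else x

lemma ker_rl {X : Type} {r : X → X → Prop} {f : X → ℕ}
    (h : ∀ x y, f x = f y ↔ EqvGen r x y) (a b x y : X) :
    rl (f a) (f b) (f x) = rl (f a) (f b) (f y) ↔ EqvGen (addP r a b) x y := by
  have mono : ∀ x y, f x = f y → EqvGen (addP r a b) x y := fun x y hxy =>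
    EqvGen.mono (fun _ _ h' => Or.inl h') _ _ ((h x y).mp hxy)
  have hab : EqvGen (addP r a b) a b := EqvGen.rel _ _ (Or.inr ⟨rfl, rfl⟩)
  have k1 : ∀ x y, f x = f a → f y = f b → EqvGen (addP r a b) x y := fun x y h1 h2 =>
    EqvGen.trans _ _ _ (mono _ _ h1) (EqvGen.trans _ _ _ hab (mono _ _ h2.symm))
  constructor
  · intro hxy
    by_cases e : f x = f y
    · exact mono _ _ e
    · have : (f x = f a ∧ f y = f b) ∨ (f y = f a ∧ f x = f b) := by
        unfold rl at hxy
        split_ifs at hxy <;> omega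
      rcases this with h1 | h1
      · exact k1 _ _ h1.1 h1.2
      · exact EqvGen.symm _ _ (k1 _ _ h1.1 h1.2)
  · intro hxy
    induction hxy with
    | rel x y hr =>
      rcases hr with hr | ⟨rfl, rfl⟩
      · rw [(h x y).mpr (EqvGen.rel _ _ hr)]
      · unfold rl
        split_ifs <;> omega
    | refl x => rfl
    | symm x y _ ih => exact ih.symm
    | trans x y z _ _ ih1 ih2 => exact ih1.trans ih2

lemma card_quot {X : Type} {r : X → X → Prop} {f : X → ℕ}
    (h : ∀ x y, f x = f y ↔ EqvGen r x y) : Nat.card (Quot r) = (Set.range f).ncard := by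
  let g : Quot r → ℕ := Quot.lift f (fun x y hr => (h x y).mpr (EqvGen.rel _ _ hr))
  have hg : Function.Injective g := by
    intro p q
    induction p using Quot.ind
    induction q using Quot.ind
    intro e
    exact Quot.eq.mpr ((h _ _).mp e)
  have hr : Set.range f = Set.range g := by
    ext n
    constructor
    · rintro ⟨x, rfl⟩
      exact ⟨Quot.mk _ x, rfl⟩
    · rintro ⟨p, rfl⟩
      induction p using Quot.ind
      exact ⟨_, rfl⟩
  rw [hr, Set.ncard_range_of_injective hg]

lemma card_addP {X : Type} [Finite X] {r : X → X → Prop} {f : X → ℕ}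
    (h : ∀ x y, f x = f y ↔ EqvGen r x y) (a b : X) :
    Nat.card (Quot (addP r a b)) + (if f a = f b then 0 else 1) = Nat.card (Quot r) := by
  rw [card_quot (ker_rl h a b), card_quot h]
  split_ifs with e
  · rw [add_zero]
    congr 2
    funext x
    unfold rl
    split_ifs <;> omega
  · have hm : max (f a) (f b) ∈ Set.range f := by
      rcases le_total (f a) (f b) with h1 | h1
      · exact ⟨b, (max_eq_right h1).symm⟩
      · exact ⟨a, (max_eq_left h1).symm⟩
    have hl : ∃ z, f z = min (f a) (f b) := by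
      rcases le_total (f a) (f b) with h1 | h1
      · exact ⟨a, (min_eq_left h1).symm⟩
      · exact ⟨b, (min_eq_right h1).symm⟩
    rw [← Set.ncard_sdiff_singleton_add_one hm (Set.finite_range f)]
    congr 2
    ext n
    simp only [Set.mem_range, Set.mem_sdiff, Set.mem_singleton_iff]
    constructor
    · rintro ⟨x, rfl⟩
      unfold rl
      split_ifs with h1
      · obtain ⟨z, hz⟩ := hl
        exact ⟨⟨z, hz⟩, by omega⟩
      · exact ⟨⟨x, rfl⟩, h1⟩
    · rintro ⟨⟨x, rfl⟩, hx⟩
      exact ⟨x, by unfold rl; rw [if_neg hx]⟩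

def mg (l : List ℕ) (i j : ℕ) : List ℕ := l.map (rl (l.getD i 0) (l.getD j 0))

def sg (l : List ℕ) (i j : ℕ) : ℤ := if l.getD i 0 = l.getD j 0 then 1 else -1

lemma getD_mg (l : List ℕ) (i j k : ℕ) :
    (mg l i j).getD k 0 = rl (l.getD i 0) (l.getD j 0) (l.getD k 0) := by
  have h0 : rl (l.getD i 0) (l.getD j 0) 0 = 0 := by
    unfold rl
    split_ifs <;> omega
  unfold mg
  have := List.getD_map (f := rl (l.getD i 0) (l.getD j 0)) (l := l) (d := 0) (n := k)
  rwa [h0] at this

def Rep {X : Type} (idx : X → ℕ) (r : X → X → Prop) (l : List ℕ) : Prop :=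
  ∀ x y, l.getD (idx x) 0 = l.getD (idx y) 0 ↔ EqvGen r x y

lemma Rep.mg {X : Type} {idx : X → ℕ} {r : X → X → Prop} {l : List ℕ} (h : Rep idx r l)
    (a b : X) : Rep idx (addP r a b) (mg l (idx a) (idx b)) := by
  intro x y
  rw [getD_mg, getD_mg]
  exact ker_rl (f := fun x => l.getD (idx x) 0) h a b x y

lemma Rep.card {X : Type} [Finite X] {idx : X → ℕ} {r : X → X → Prop} {l : List ℕ}
    (h : Rep idx r l) (a b : X) :
    Nat.card (Quot (addP r a b)) + (if l.getD (idx a) 0 = l.getD (idx b) 0 then 0 else 1) =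
      Nat.card (Quot r) :=
  card_addP (f := fun x => l.getD (idx x) 0) h a b

lemma Rep.sign {X : Type} [Finite X] {idx : X → ℕ} {r : X → X → Prop} {l : List ℕ}
    (h : Rep idx r l) (a b : X) :
    (-1 : ℤ) ^ Nat.card (Quot (addP r a b)) = (-1) ^ Nat.card (Quot r) * sg l (idx a) (idx b) := by
  rw [← h.card a b]
  unfold sg
  split_ifs <;> simp [pow_succ]

def merges : List ℕ → List (ℕ × ℕ) → ℕ
  | _, [] => 0
  | l, p :: ps => (if l.getD p.1 0 = l.getD p.2 0 then 0 else 1) + merges (mg l p.1 p.2) ps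

lemma card_list {X : Type} [Finite X] {idx : X → ℕ} (ps : List (X × X)) :
    ∀ {r : X → X → Prop} {l : List ℕ}, Rep idx r l →
    Nat.card (Quot (fun x y => r x y ∨ (x, y) ∈ ps)) +
      merges l (ps.map fun p => (idx p.1, idx p.2)) = Nat.card (Quot r) := by
  induction ps with
  | nil => intro r l _; simp [merges]
  | cons p ps ih =>
    intro r l h
    have e : (fun x y => r x y ∨ (x, y) ∈ p :: ps) =
        (fun x y => addP r p.1 p.2 x y ∨ (x, y) ∈ ps) := by
      funext x y
      simp [addP, or_assoc, Prod.ext_iff]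
    rw [e, List.map_cons, merges, ← h.card p.1 p.2, ← ih (h.mg p.1 p.2)]
    ring

abbrev Q4 := (ℕ × ℕ) × (ℕ × ℕ)

def mg2 (l : List ℕ) (q : Q4) : List ℕ := mg (mg l q.1.1 q.1.2) q.2.1 q.2.2

def sg2 (l : List ℕ) (q : Q4) : ℤ := sg l q.1.1 q.1.2 * sg (mg l q.1.1 q.1.2) q.2.1 q.2.2

def Z : List ℕ → List (Q4 × Q4) → ℤ
  | _, [] => 1
  | l, q :: Q => sg2 l q.1 * Z (mg2 l q.1) Q - sg2 l q.2 * Z (mg2 l q.2) Q

def pr {X : Type} (p : (X × X) × (X × X)) (x y : X) : Prop :=
  (x = p.1.1 ∧ y = p.1.2) ∨ (x = p.2.1 ∧ y = p.2.2)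

def qi {X : Type} (idx : X → ℕ) (p : (X × X) × (X × X)) : Q4 :=
  ((idx p.1.1, idx p.1.2), (idx p.2.1, idx p.2.2))

lemma state_sum {X E : Type} [Finite X] [DecidableEq E] {idx : X → ℕ}
    (W C : E → (X × X) × (X × X)) (es : List E) (hn : es.Nodup) :
    ∀ {r : X → X → Prop} {l : List ℕ}, Rep idx r l →
    ∑ A ∈ es.toFinset.powerset, (-1 : ℤ) ^ A.card * (-1) ^ Nat.card (Quot (fun x y =>
      r x y ∨ ∃ e ∈ es, if e ∈ A then pr (C e) x y else pr (W e) x y)) =
      (-1) ^ Nat.card (Quot r) * Z l (es.map fun e => (qi idx (W e), qi idx (C e))) := by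
  induction es with
  | nil => intro r l _; simp [Z]
  | cons e es ih =>
    intro r l h
    have he : e ∉ es := (List.nodup_cons.mp hn).1
    have ih' := @ih (List.nodup_cons.mp hn).2
    rw [List.toFinset_cons, Finset.sum_powerset_insert (by simpa using he), List.map_cons, Z]
    have hW := ih' ((h.mg (W e).1.1 (W e).1.2).mg (W e).2.1 (W e).2.2)
    have hC := ih' ((h.mg (C e).1.1 (C e).1.2).mg (C e).2.1 (C e).2.2)
    rw [(h.mg (W e).1.1 (W e).1.2).sign, h.sign] at hW
    rw [(h.mg (C e).1.1 (C e).1.2).sign, h.sign] at hC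
    have e1 : ∀ A ∈ es.toFinset.powerset,
        (fun x y => r x y ∨ ∃ e' ∈ e :: es, if e' ∈ A then pr (C e') x y else pr (W e') x y) =
        (fun x y => addP (addP r (W e).1.1 (W e).1.2) (W e).2.1 (W e).2.2 x y ∨
          ∃ e' ∈ es, if e' ∈ A then pr (C e') x y else pr (W e') x y) := by
      intro A hA
      have : e ∉ A := fun h' => he (by simpa using Finset.mem_powerset.mp hA h')
      funext x y
      simp only [List.mem_cons, exists_eq_or_imp, if_neg this, addP, pr, or_assoc]
    have e2 : ∀ A ∈ es.toFinset.powerset,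
        (fun x y => r x y ∨ ∃ e' ∈ e :: es,
          if e' ∈ insert e A then pr (C e') x y else pr (W e') x y) =
        (fun x y => addP (addP r (C e).1.1 (C e).1.2) (C e).2.1 (C e).2.2 x y ∨
          ∃ e' ∈ es, if e' ∈ A then pr (C e') x y else pr (W e') x y) := by
      intro A hA
      funext x y
      have : (∃ e' ∈ es, if e' ∈ insert e A then pr (C e') x y else pr (W e') x y) ↔
          (∃ e' ∈ es, if e' ∈ A then pr (C e') x y else pr (W e') x y) := by
        refine exists_congr fun e' => and_congr_right fun h' => ?_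
        have hne : e' ≠ e := fun h'' => he (h'' ▸ h')
        simp only [Finset.mem_insert, hne, false_or]
      simp only [List.mem_cons, exists_eq_or_imp, this, if_pos (Finset.mem_insert_self e A), addP,
        or_assoc]
      simp only [pr, or_assoc]
    rw [Finset.sum_congr rfl (fun A hA => by rw [e1 A hA]), hW]
    rw [Finset.sum_congr rfl (fun A hA => by
      rw [e2 A hA, Finset.card_insert_of_notMem (fun h' => he (by
        simpa using Finset.mem_powerset.mp hA h')), pow_succ, mul_assoc, neg_one_mul, mul_neg])]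
    rw [Finset.sum_neg_distrib, hC]
    simp only [sg2, mg2, qi]
    ring

def bd (m : ℕ) (q : Q4) : Bool := q.1.1 < m && q.1.2 < m && q.2.1 < m && q.2.2 < m

lemma getD_take (l : List ℕ) {m i : ℕ} (h : i < m) : (l.take m).getD i 0 = l.getD i 0 := by
  simp [List.getD_eq_getElem?_getD, h]

lemma mg_take (l : List ℕ) {m i j : ℕ} (hi : i < m) (hj : j < m) :
    mg (l.take m) i j = (mg l i j).take m := by
  unfold mg
  rw [getD_take l hi, getD_take l hj, List.map_take]

lemma sg_take (l : List ℕ) {m i j : ℕ} (hi : i < m) (hj : j < m) :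
    sg (l.take m) i j = sg l i j := by
  unfold sg
  rw [getD_take l hi, getD_take l hj]

lemma two_take (l : List ℕ) {m : ℕ} {q : Q4} (h : bd m q = true) :
    mg2 (l.take m) q = (mg2 l q).take m ∧ sg2 (l.take m) q = sg2 l q := by
  simp only [bd, Bool.and_eq_true, decide_eq_true_eq] at h
  obtain ⟨⟨⟨h1, h2⟩, h3⟩, h4⟩ := h
  unfold mg2 sg2
  rw [mg_take l h1 h2, mg_take _ h3 h4, sg_take l h1 h2, sg_take _ h3 h4]
  exact ⟨rfl, rfl⟩

lemma Z_take (m : ℕ) (Q : List (Q4 × Q4)) :
    ∀ l : List ℕ, (Q.all fun q => bd m q.1 && bd m q.2) = true → Z (l.take m) Q = Z l Q := by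
  induction Q with
  | nil => intro l _; rfl
  | cons q Q ih =>
    intro l h
    simp only [List.all_cons, Bool.and_eq_true] at h
    rw [Z, Z, (two_take l h.1.1).1, (two_take l h.1.1).2, (two_take l h.1.2).1,
      (two_take l h.1.2).2, ih _ h.2, ih _ h.2]

def force {β : Type} (n : ℕ) (f : ℕ → β) : β := Nat.casesOn n (f 0) (fun k => f (Nat.succ k))

lemma force_eq {β : Type} (n : ℕ) (f : ℕ → β) : force n f = f n := by cases n <;> rfl

def forceZ {β : Type} (z : ℤ) (f : ℤ → β) : β :=
  match z with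
  | Int.ofNat n => force n (fun k => f (Int.ofNat k))
  | Int.negSucc n => force n (fun k => f (Int.negSucc k))

lemma forceZ_eq {β : Type} (z : ℤ) (f : ℤ → β) : forceZ z f = f z := by
  cases z <;> simp only [forceZ, force_eq]

noncomputable def mapK (hi lo : ℕ) (l : List ℕ) : (List ℕ → ℤ) → ℤ :=
  List.rec (motive := fun _ => (List ℕ → ℤ) → ℤ) (fun k => k [])
    (fun a _ ih k => cond (Nat.beq a hi) (ih fun t => k (lo :: t)) (ih fun t => k (a :: t))) l

lemma mapK_eq (u v : ℕ) (l : List ℕ) :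
    ∀ k : List ℕ → ℤ, mapK (max u v) (min u v) l k = k (l.map (rl u v)) := by
  induction l with
  | nil => intro k; rfl
  | cons a l ih =>
    intro k
    have e : mapK (max u v) (min u v) (a :: l) k = cond (Nat.beq a (max u v))
      (mapK (max u v) (min u v) l fun t => k (min u v :: t))
      (mapK (max u v) (min u v) l fun t => k (a :: t)) := rfl
    rw [e, ih, ih, List.map_cons, rl]
    split_ifs with h
    · rw [h, Nat.beq_refl]; rfl
    · have : Nat.beq a (max u v) = false := by
        rw [← Bool.not_eq_true, Nat.beq_eq]; exact h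
      rw [this]; rfl

noncomputable def gt (l : List ℕ) : ℕ → ℕ :=
  List.rec (motive := fun _ => ℕ → ℕ) (fun _ => 0)
    (fun a _ ih i => Nat.rec (motive := fun _ => ℕ) a (fun j _ => ih j) i) l

lemma gt_eq (l : List ℕ) : ∀ i, gt l i = l.getD i 0 := by
  induction l with
  | nil => intro i; rfl
  | cons a l ih =>
    intro i
    cases i with
    | zero => rfl
    | succ j => exact ih j

noncomputable def mgK (l : List ℕ) (i j : ℕ) (c : ℤ) (k : List ℕ → ℤ → ℤ) : ℤ :=
  force (gt l i) fun u => force (gt l j) fun v =>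
    cond (Nat.beq u v) (k l c) (cond (Nat.ble u v) (mapK v u l fun t => k t (-c))
      (mapK u v l fun t => k t (-c)))

lemma mgK_eq (l : List ℕ) (i j : ℕ) (c : ℤ) (k : List ℕ → ℤ → ℤ) :
    mgK l i j c k = k (mg l i j) (c * sg l i j) := by
  simp only [mgK, force_eq, gt_eq, mg, sg]
  generalize l.getD i 0 = u
  generalize l.getD j 0 = v
  by_cases h : u = v
  · subst h
    have : l.map (rl u u) = l := by
      conv_rhs => rw [← List.map_id l]
      congr 1
      funext x
      unfold rl
      split_ifs <;> simp_all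
    rw [Nat.beq_refl, this]
    simp
  · have h1 : Nat.beq u v = false := by
      rw [← Bool.not_eq_true, Nat.beq_eq]; exact h
    rw [h1, if_neg h, mul_neg, mul_one]
    rcases le_total u v with h2 | h2
    · have := mapK_eq u v l (fun t => k t (-c))
      rw [max_eq_right h2, min_eq_left h2] at this
      rw [Nat.ble_eq_true_of_le h2]
      exact this
    · have := mapK_eq u v l (fun t => k t (-c))
      rw [max_eq_left h2, min_eq_right h2] at this
      have h3 : Nat.ble u v = false := by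
        rw [← Bool.not_eq_true, Nat.ble_eq]; omega
      rw [h3]
      exact this

noncomputable def takeK (l : List ℕ) : ℕ → (List ℕ → ℕ → ℤ) → ℤ :=
  List.rec (motive := fun _ => ℕ → (List ℕ → ℕ → ℤ) → ℤ) (fun _ k => k [] 0)
    (fun a _ ih m k => Nat.rec (motive := fun _ => ℤ) (k [] 0)
      (fun j _ => ih j fun t w => force (Nat.add (Nat.mul w 64) a) fun w' => k (a :: t) w') m) l

lemma takeK_eq (l : List ℕ) :
    ∀ (m : ℕ) (k : List ℕ → ℕ → ℤ), ∃ w, takeK l m k = k (l.take m) w := by
  induction l with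
  | nil => intro m k; exact ⟨0, by rw [List.take_nil]; rfl⟩
  | cons a l ih =>
    intro m k
    cases m with
    | zero => exact ⟨0, rfl⟩
    | succ j =>
      obtain ⟨w, hw⟩ := ih j fun t w => force (Nat.add (Nat.mul w 64) a) fun w' => k (a :: t) w'
      exact ⟨_, hw.trans (force_eq _ _)⟩

noncomputable def beqL (l : List ℕ) : List ℕ → Bool :=
  List.rec (motive := fun _ => List ℕ → Bool)
    (fun t => List.rec (motive := fun _ => Bool) true (fun _ _ _ => false) t)
    (fun a _ ih t => List.rec (motive := fun _ => Bool) false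
      (fun b t' _ => cond (Nat.beq a b) (ih t') false) t) l

lemma beqL_eq (l : List ℕ) : ∀ t, beqL l t = true → l = t := by
  induction l with
  | nil =>
    intro t h
    cases t with
    | nil => rfl
    | cons b t => exact absurd h Bool.false_ne_true
  | cons a l ih =>
    intro t h
    cases t with
    | nil => exact absurd h Bool.false_ne_true
    | cons b t =>
      have e : beqL (a :: l) (b :: t) = cond (Nat.beq a b) (beqL l t) false := rfl
      rw [e] at h
      cases hb : Nat.beq a b with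
      | false => rw [hb] at h; exact absurd h Bool.false_ne_true
      | true =>
        rw [hb] at h
        rw [Nat.eq_of_beq_eq_true hb, ih t h]

inductive Tr
  | nil : Tr
  | node : Tr → ℕ → List ℕ → ℤ → Tr → Tr

def wt (Q : List (Q4 × Q4)) : Tr → ℤ
  | .nil => 0
  | .node L _ l c R => wt Q L + c * Z l Q + wt Q R

noncomputable def insK (w : ℕ) (l : List ℕ) (c : ℤ) (T : Tr) : (Tr → ℤ) → ℤ :=
  Tr.rec (motive := fun _ => (Tr → ℤ) → ℤ) (fun k => k (.node .nil w l c .nil))
    (fun L w0 l0 c0 R ihL ihR k =>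
      cond (cond (Nat.beq w w0) (beqL l l0) false)
        (forceZ (c + c0) fun z => k (.node L w0 l0 z R))
        (cond (Nat.ble w w0) (ihL fun L' => k (.node L' w0 l0 c0 R))
          (ihR fun R' => k (.node L w0 l0 c0 R')))) T

lemma insK_eq (w : ℕ) (l : List ℕ) (c : ℤ) (Q : List (Q4 × Q4)) (T : Tr) :
    ∀ k : Tr → ℤ, ∃ T', insK w l c T k = k T' ∧ wt Q T' = c * Z l Q + wt Q T := by
  induction T with
  | nil => intro k; exact ⟨_, rfl, by simp [wt]⟩
  | node L w0 l0 c0 R ihL ihR =>
    intro k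
    have e : insK w l c (.node L w0 l0 c0 R) k = cond (cond (Nat.beq w w0) (beqL l l0) false)
        (forceZ (c + c0) fun z => k (.node L w0 l0 z R))
        (cond (Nat.ble w w0) (insK w l c L fun L' => k (.node L' w0 l0 c0 R))
          (insK w l c R fun R' => k (.node L w0 l0 c0 R'))) := rfl
    rw [e]
    cases h1 : cond (Nat.beq w w0) (beqL l l0) false with
    | true =>
      have : l = l0 := by
        cases h2 : Nat.beq w w0 with
        | false => rw [h2] at h1; exact absurd h1 Bool.false_ne_true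
        | true => rw [h2] at h1; exact beqL_eq _ _ h1
      refine ⟨.node L w0 l0 (c + c0) R, forceZ_eq (c + c0) fun z => k (.node L w0 l0 z R), ?_⟩
      rw [wt, wt, this]
      ring
    | false =>
      cases h2 : Nat.ble w w0 with
      | true =>
        obtain ⟨T', h3, h4⟩ := ihL fun L' => k (.node L' w0 l0 c0 R)
        refine ⟨_, h3, ?_⟩
        rw [wt, wt, h4]
        ring
      | false =>
        obtain ⟨T', h3, h4⟩ := ihR fun R' => k (.node L w0 l0 c0 R')
        refine ⟨_, h3, ?_⟩
        rw [wt, wt, h4]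
        ring

noncomputable def put (m : ℕ) (q : Q4) (l : List ℕ) (c : ℤ) (T : Tr) (k : Tr → ℤ) : ℤ :=
  mgK l q.1.1 q.1.2 c fun l1 c1 => mgK l1 q.2.1 q.2.2 c1 fun l2 c2 =>
    takeK l2 m fun l3 w => forceZ c2 fun z => insK w l3 z T k

lemma put_eq (m : ℕ) (q : Q4) (l : List ℕ) (c : ℤ) (Q : List (Q4 × Q4))
    (h : (Q.all fun q => bd m q.1 && bd m q.2) = true) (T : Tr) (k : Tr → ℤ) :
    ∃ T', put m q l c T k = k T' ∧ wt Q T' = c * (sg2 l q * Z (mg2 l q) Q) + wt Q T := by
  rw [put, mgK_eq, mgK_eq]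
  obtain ⟨w, hw⟩ := takeK_eq (mg (mg l q.1.1 q.1.2) q.2.1 q.2.2) m fun l3 w =>
    forceZ (c * sg l q.1.1 q.1.2 * sg (mg l q.1.1 q.1.2) q.2.1 q.2.2) fun z => insK w l3 z T k
  rw [hw, forceZ_eq]
  obtain ⟨T', h1, h2⟩ := insK_eq w ((mg (mg l q.1.1 q.1.2) q.2.1 q.2.2).take m)
    (c * sg l q.1.1 q.1.2 * sg (mg l q.1.1 q.1.2) q.2.1 q.2.2) Q T k
  refine ⟨T', h1, ?_⟩
  rw [h2, Z_take m Q _ h, mg2, sg2]
  ring

noncomputable def step (m : ℕ) (q : Q4 × Q4) (T : Tr) : Tr → (Tr → ℤ) → ℤ :=
  Tr.rec (motive := fun _ => Tr → (Tr → ℤ) → ℤ) (fun acc k => k acc)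
    (fun _ _ l c _ ihL ihR acc k =>
      put m q.1 l c acc fun a1 => put m q.2 l (-c) a1 fun a2 => ihL a2 fun a3 => ihR a3 k) T

lemma step_eq (m : ℕ) (q : Q4 × Q4) (Q : List (Q4 × Q4))
    (h : (Q.all fun q => bd m q.1 && bd m q.2) = true) (T : Tr) :
    ∀ (acc : Tr) (k : Tr → ℤ),
      ∃ T', step m q T acc k = k T' ∧ wt Q T' = wt (q :: Q) T + wt Q acc := by
  induction T with
  | nil => intro acc k; exact ⟨acc, rfl, by simp [wt]⟩
  | node L w l c R ihL ihR =>
    intro acc k
    have e : step m q (.node L w l c R) acc k = put m q.1 l c acc fun a1 =>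
      put m q.2 l (-c) a1 fun a2 => step m q L a2 fun a3 => step m q R a3 k := rfl
    obtain ⟨a1, h1, g1⟩ := put_eq m q.1 l c Q h acc fun a1 =>
      put m q.2 l (-c) a1 fun a2 => step m q L a2 fun a3 => step m q R a3 k
    obtain ⟨a2, h2, g2⟩ := put_eq m q.2 l (-c) Q h a1 fun a2 =>
      step m q L a2 fun a3 => step m q R a3 k
    obtain ⟨a3, h3, g3⟩ := ihL a2 fun a3 => step m q R a3 k
    obtain ⟨a4, h4, g4⟩ := ihR a3 k
    refine ⟨a4, by rw [e, h1, h2, h3, h4], ?_⟩
    rw [g4, g3, g2, g1, wt, Z]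
    ring

noncomputable def tsum (T : Tr) : ℤ :=
  Tr.rec (motive := fun _ => ℤ) 0 (fun _ _ _ c _ a b => a + c + b) T

lemma tsum_eq (T : Tr) : tsum T = wt [] T := by
  induction T with
  | nil => rfl
  | node L w l c R ihL ihR =>
    rw [wt, ← ihL, ← ihR, Z, mul_one]
    rfl

noncomputable def run (Q : List (ℕ × (Q4 × Q4))) : Tr → ℤ :=
  List.rec (motive := fun _ => Tr → ℤ) tsum (fun q _ ih T => step q.1 q.2 T .nil ih) Q

def okb : List (ℕ × (Q4 × Q4)) → Bool
  | [] => true
  | q :: Q => (Q.map Prod.snd).all (fun p => bd q.1 p.1 && bd q.1 p.2) && okb Q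

lemma run_eq (Q : List (ℕ × (Q4 × Q4))) (h : okb Q = true) :
    ∀ T, run Q T = wt (Q.map Prod.snd) T := by
  induction Q with
  | nil => exact tsum_eq
  | cons q Q ih =>
    rw [okb, Bool.and_eq_true] at h
    intro T
    obtain ⟨T', h1, h2⟩ := step_eq q.1 q.2 _ h.1 T .nil (run Q)
    have e : run (q :: Q) T = step q.1 q.2 T .nil (run Q) := rfl
    rw [e, h1, ih h.2, h2]
    simp [wt]

def cnt (nb : ℕ → List ℕ) : ℕ → List (Fin 3) → ℕ
  | 0, _ => 1
  | n + 1, l => ∑ c : Fin 3,
      if ∀ i ∈ nb l.length, l[i]? ≠ some c then cnt nb n (l ++ [c]) else 0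

lemma cnt_eq (nb : ℕ → List ℕ) (hnb : ∀ j, ∀ i ∈ nb j, i < j) (n : ℕ) :
    ∀ l : List (Fin 3), cnt nb n l = ∑ f : Fin n → Fin 3,
      if ∀ j : Fin n, ∀ i ∈ nb (l.length + j), (l ++ List.ofFn f)[i]? ≠ some (f j)
        then 1 else 0 := by
  induction n with
  | zero => intro l; simp [cnt]
  | succ n ih =>
    intro l
    rw [cnt, ← (Fin.consEquiv fun _ => Fin 3).sum_comp, Fintype.sum_prod_type]
    refine Finset.sum_congr rfl fun c _ => ?_
    have key : ∀ g : Fin n → Fin 3,
        (∀ j : Fin (n + 1), ∀ i ∈ nb (l.length + j),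
          (l ++ List.ofFn ((Fin.consEquiv fun _ => Fin 3) (c, g)))[i]? ≠
            some ((Fin.consEquiv fun _ => Fin 3) (c, g) j)) ↔
        ((∀ i ∈ nb l.length, l[i]? ≠ some c) ∧
          ∀ j : Fin n, ∀ i ∈ nb ((l ++ [c]).length + j),
            ((l ++ [c]) ++ List.ofFn g)[i]? ≠ some (g j)) := by
      intro g
      rw [Fin.forall_fin_succ]
      simp only [Fin.consEquiv_apply, List.ofFn_succ, Fin.cons_zero, Fin.cons_succ, Fin.val_zero,
        add_zero, Fin.val_succ, List.length_append, List.length_singleton, List.append_assoc,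
        List.singleton_append]
      refine and_congr ?_ ?_
      · refine forall_congr' fun i => forall_congr' fun hi => ?_
        rw [List.getElem?_append_left (hnb _ _ hi)]
      · refine forall_congr' fun j => ?_
        rw [show l.length + (j + 1) = l.length + 1 + j by ring]
    simp only [key]
    split_ifs with h
    · rw [ih]
      refine Finset.sum_congr rfl fun g _ => ?_
      simp only [and_iff_right h]
    · simp only [h, false_and, if_false, Finset.sum_const_zero]

end Pool.Agent.H.MP_daa8b9_co
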